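import Mathlib
import Pool.Agent.helper38.SqFree2.Final2

namespace Pool.Agent.Results.MP_37e5fa_nt.SquarefreePart

/-- If the Fermat number `F_m` is written as `A * B ^ 2`, then `4 ^ m ≤ 100 √A log A`. Hence the
squarefree part of `F_m` is at least `c 16 ^ m / m ^ 2`. -/
theorem result (m A B : ℕ) (h : Nat.fermatNumber m = A * B ^ 2) :
    (4 : ℝ) ^ m ≤ 100 * Real.sqrt A * Real.log A :=
  Pool.Agent.helper38.SqFree2.fermat_bound m A B h

end Pool.Agent.Results.MP_37e5fa_nt.SquarefreePart
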