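import Mathlib
import Pool.Agent.helper38.SqFree2.Final2

namespace Pool.Agent.Results.MP_a70bdc_nt.SquarefreePart

/-- If `n = 2 ^ j` and `n ^ n + 1` is written as `A * B ^ 2`, then
`(n log₂ n) ^ 2 ≤ 100 √A log A`. Hence the squarefree part of `n ^ n + 1` is at least
`c n ^ 4 (log₂ n) ^ 2`. -/
theorem result (j A B : ℕ) (h : (2 ^ j) ^ (2 ^ j) + 1 = A * B ^ 2) :
    ((j : ℝ) * 2 ^ j) ^ 2 ≤ 100 * Real.sqrt A * Real.log A :=
  Pool.Agent.helper38.SqFree2.nn_bound j A B h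

end Pool.Agent.Results.MP_a70bdc_nt.SquarefreePart
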