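import Pool.Agent.helper38.AT.AllD
import Pool.Agent.helper11.TX.All3
import Pool.Agent.helper11.MK.Main

/-!
# Almost all tuples of linear forms, and the duality between shifts and coefficients

A linear form `f = (s, h)` is `s n + h`, `s ≥ 1`. A tuple of `k` forms is called `θ`-rich (`Many θ`) if more than `θ k` of the `k` forms
are prime simultaneously for infinitely many `n`. Let `e = 1/500000`.

THEOREM. (1) For every `k` there are `C, δ > 0` such that for all finite sets `F_1, ..., F_k` of at least `L` forms all but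
`C |F_1| ... |F_k| L^(-δ)` of the admissible tuples in `F_1 × ... × F_k` are `(1/4 + e)`-rich.
(2) DUALITY. For every `θ > 0` at least one holds: (A) for every `k` there are `C, δ > 0` such that for all finite sets `F_1, ..., F_k` of at
least `L` integers all but `C |F_1| ... |F_k| L^(-δ)` of the `h` with `n + h_1, ..., n + h_k` admissible are such that
`n + h_1, ..., n + h_k` is `θ`-rich; (B) for all `μ_1, ..., μ_m ≥ 1` there is `D` such that every cube of side `D` in `ℤ^m` contains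
an `h` such that `μ_1 n + h_1, ..., μ_m n + h_m` is `(1/4 + e)/θ`-rich. (2') The same for all slopes `s_1, ..., s_k`, with `C` and `δ` depending
only on `k` and `m`.
Examples: `θ = 1/4 + e` is the case `s_i = 1` of (1); `θ = 1/2`: either more than half of the forms of almost all admissible tuples
`n + h_i`, or both forms `μ_1 n + h_1`, `μ_2 n + h_2` for all `μ_1, μ_2` and a relatively dense set of the `(h_1, h_2)`; `θ = 3/4`: either all
four forms of almost all admissible quadruples `n + h_i`, or two of any three forms `μ_p n + h_p` with relatively dense `h`; `θ = 1`: more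
than `(1/4 + e) m` of the forms `μ_p n + h_p`, for any `μ_1, ..., μ_m` and relatively dense `h`.
Consequences for Q1: (3) in every finite set `V` of forms `a n + b`, `b` prime to `6 a`, at least `|V|² / 3 - C |V|^(2 - δ)` ordered pairs
give a true case of Q1; (4) one quarter of all admissible triples `(a, b, c)` (logarithmic density in `a`, `b`) are true cases, and
`1/3 - ε` of them if every triple is counted with its singular series; (5) for every `m` at least `(1/3 - ε) M` of the integers `c` in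
every long interval of `M` integers have `p - q = 2 m c` for infinitely many pairs of primes.

PROOF. Rows and complete proofs in `Pool/Agent/helper38/AT/Spec.lean`, `Pool/Agent/helper10/QT/SpecX.lean`,
`Pool/Agent/helper7/AL/SpecL.lean`, `SpecD.lean`, `SpecE.lean`. In `k` clusters of linear forms more than `(1/4 + e) k` contain primes
simultaneously: a theorem of the kind of Maynard and Tao, with Rosser's sieve and a small gain for the pairs, as in the work of Merikoski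
(`Pool.Agent.helper17.MK`). The forms in a box of admissible tuples in one residue class modulo the small primes are admissible
together: the box theorem, every large box of admissible tuples contains a rich one. By the theorem of Kovari, Sos, Turan and Erdos a set
of tuples without a large box is small by a power. Duality: if all tuples of a box are not `θ`-rich, then `m` copies `n ↦ μ_p n + h_p` of it
are `m k` clusters, more than `(1/4 + e) m k` of the forms of some tuple are prime together, and at most `θ k` in every copy; so more than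
`(1/4 + e) m/θ` copies contain a prime. (3) is (1) for `k = 4` and the inequality of Moon and Moser, (5) a greedy choice of quadruples
`n + h_1, ..., n + h_4`, `h_1 = h_2 = 0`, `h_3 = h_4 = 4` modulo 6, in four intervals of quickly growing lengths.
-/

set_option autoImplicit false

namespace Pool.Agent.Results.MP_bf63dc_nt.AlmostAllTuples

open Finset

/-- The value at `n` of the linear form `s n + h`, `f = (s, h)` (`0` if it is negative). -/
def ev (f : ℕ × ℤ) (n : ℕ) : ℕ := ((f.1 : ℤ) * n + f.2).toNat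

/-- The linear forms `f i` are admissible: no prime divides the product of their values at all `n`. -/
def Adm {k : ℕ} (f : Fin k → ℕ × ℤ) : Prop :=
  ∀ p : ℕ, p.Prime → ∃ n : ℕ, ∀ i, ¬ (p : ℤ) ∣ ((f i).1 : ℤ) * n + (f i).2

/-- The tuple `f` is `θ`-rich: for infinitely many `n` more than `θ k` of the `k` forms have a prime value at `n`. -/
def Many (θ : ℝ) {k : ℕ} (f : Fin k → ℕ × ℤ) : Prop :=
  ∀ N : ℕ, ∃ n ≥ N, θ * k < #{i : Fin k | (ev (f i) n).Prime}

/-- For all finite sets `F i` of at least `L` integers all but `C |F_1| ... |F_k| L^(-δ)` of the `h` in their product for which the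
forms `s_i n + h_i` are admissible are such that these forms are a `θ`-rich tuple. -/
def AlmostAll (θ : ℝ) {k : ℕ} (s : Fin k → ℕ) (C δ : ℝ) : Prop :=
  ∀ (F : Fin k → Finset ℤ) (L : ℕ), 1 ≤ L → (∀ i, L ≤ #(F i)) →
    ({h | h ∈ Fintype.piFinset F ∧ (Adm (fun i => (s i, h i)) ∧ ¬ Many θ (fun i => (s i, h i)))}.ncard : ℝ) ≤
      C * (∏ i, (#(F i) : ℝ)) * (L : ℝ) ^ (-δ)

/-- The conditions of Q1 on `a, b, c`. -/
def Admissible (a b : ℕ) (c : ℤ) : Prop :=
  0 < a ∧ 0 < b ∧ c ≠ 0 ∧ Nat.Coprime a b ∧ IsCoprime (a : ℤ) c ∧ IsCoprime (b : ℤ) c ∧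
    ¬ (Odd a ∧ Odd b ∧ Odd c)

/-- `(a, b, c)` satisfies the conditions of Q1 and `a p - b q = c` has infinitely many solutions in
primes `p, q`. -/
def TrueCase (a b : ℕ) (c : ℤ) : Prop :=
  Admissible a b c ∧ {pq : ℕ × ℕ | pq.1.Prime ∧ pq.2.Prime ∧ (a : ℤ) * pq.1 - b * pq.2 = c}.Infinite

/-- The pair of forms `f = (s, h)`, `g = (t, h')` gives a true case of Q1: with `d = gcd(s, t)` the equation
`(t/d) p - (s/d) q = (t h - s h')/d` (satisfied by `p = s n + h`, `q = t n + h'`). -/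
def Pair (f g : ℕ × ℤ) : Prop :=
  TrueCase (g.1 / Nat.gcd f.1 g.1) (f.1 / Nat.gcd f.1 g.1) (((g.1 : ℤ) * f.2 - f.1 * g.2) / Nat.gcd f.1 g.1)

/-- The singular series of `a p - b q = c` up to a constant factor: the product of `(l - 1)/(l - 2)` over the primes `l ≠ 2` dividing
`a b c`. -/
noncomputable def SS (a b : ℕ) (c : ℤ) : ℝ :=
  ∏ l ∈ (a * b * c.natAbs).primeFactors with l ≠ 2, ((l : ℝ) - 1) / ((l : ℝ) - 2)

/-- The sum over `a, b ≤ N` of `1/(a b)` times the mean value `1/b` times the sum of `G a b c` over the `c` with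
`b u < c ≤ b (u + M)` and `P a b c`. -/
noncomputable def LogSum (G : ℕ → ℕ → ℤ → ℝ) (P : ℕ → ℕ → ℤ → Prop) (N M : ℕ) (u : ℤ) : ℝ :=
  ∑ a ∈ Icc 1 N, ∑ b ∈ Icc 1 N, 1 / ((a : ℝ) * (b : ℝ) ^ 2) *
    ∑ c ∈ Ioc ((b : ℤ) * u) ((b : ℤ) * (u + M)), Set.indicator {c | P a b c} (G a b) c

theorem hT : Pool.Agent.helper85.FC.TrueCase = TrueCase := by
  funext a b c
  unfold Pool.Agent.helper85.FC.TrueCase TrueCase Admissible
  simp only [and_assoc]

theorem hP : Pool.Agent.AT.Pair = Pair := by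
  funext f g
  unfold Pool.Agent.AT.Pair Pair
  rw [hT]

theorem hcard {α : Type} (s : Finset α) (P Q : α → Prop) (inst : DecidablePred Q) (h : ∀ x, P x ↔ Q x) :
    (({x | x ∈ s ∧ P x}.ncard : ℕ) : ℝ) = ((#(@Finset.filter α Q inst s) : ℕ) : ℝ) := by
  have h1 : {x | x ∈ s ∧ P x} = ((@Finset.filter α Q inst s : Finset α) : Set α) := by
    ext x
    simp [h]
  rw [h1, Set.ncard_coe_finset]

theorem aa (k K : ℕ) (hk : 1 ≤ k) (hK : 1 ≤ K) :
    ∃ C δ : ℝ, 0 < C ∧ 0 < δ ∧ ∀ (θ : ℝ) (s : Fin k → ℕ), Pool.Agent.LD.BoxT θ k s K → AlmostAll θ s C δ := by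
  obtain ⟨C, δ, hC, hδ, -, H⟩ := Pool.Agent.LD.LQT_all k K hk hK
  refine ⟨C, δ, hC, hδ, fun θ s hB F L hL hF => ?_⟩
  rw [hcard _ _ _ _ fun h => (Iff.rfl : (Adm (fun i => (s i, h i)) ∧ ¬ Many θ (fun i => (s i, h i))) ↔
    (Pool.Agent.AT.Adm (Pool.Agent.LD.fo s h) ∧ ¬ Pool.Agent.LD.ManyT θ (Pool.Agent.LD.fo s h)))]
  exact H θ s hB F L hL hF

theorem mm {θ : ℝ} (hθ : 0 < θ) {m : ℕ} (f : Fin m → ℕ × ℤ) (I : Finset (Fin m))
    (hI : (m : ℝ) * (1 / 4 + 1 / 500000) < θ * #I) (H : ∀ N : ℕ, ∃ n ≥ N, ∀ p ∈ I, (ev (f p) n).Prime) :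
    Many ((1 / 4 + 1 / 500000) / θ) f := by
  intro N
  obtain ⟨n, hn, hp⟩ := H N
  refine ⟨n, hn, ?_⟩
  have h2 : (#I : ℝ) ≤ #{p : Fin m | (ev (f p) n).Prime} := by
    refine Nat.cast_le.2 (card_le_card fun p hp' => ?_)
    rw [mem_filter]
    exact ⟨mem_univ p, hp p hp'⟩
  rw [div_mul_eq_mul_div, div_lt_iff₀ hθ]
  nlinarith

/-- **Almost all tuples of linear forms, the duality, and consequences.** -/
theorem result :
    -- almost all tuples of forms
    (∀ k : ℕ, 1 ≤ k → ∃ C δ : ℝ, 0 < C ∧ 0 < δ ∧ ∀ (F : Fin k → Finset (ℕ × ℤ)) (L : ℕ), 1 ≤ L →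
      (∀ i, L ≤ #(F i)) → (∀ i, ∀ f ∈ F i, 0 < f.1) →
      ({f | f ∈ Fintype.piFinset F ∧ (Adm f ∧ ¬ Many (1 / 4 + 1 / 500000) f)}.ncard : ℝ) ≤
        C * (∏ i, (#(F i) : ℝ)) * (L : ℝ) ^ (-δ)) ∧
    -- the duality
    (∀ θ : ℝ, 0 < θ →
      (∀ k : ℕ, 1 ≤ k → ∃ C δ : ℝ, 0 < C ∧ 0 < δ ∧ AlmostAll θ (fun _ : Fin k => 1) C δ) ∨
      ∀ m : ℕ, 1 ≤ m → ∀ μ : Fin m → ℕ, (∀ p, 0 < μ p) → ∃ D : ℕ, ∀ w : Fin m → ℤ, ∃ h : Fin m → ℤ,
        (∀ p, w p < h p ∧ h p ≤ w p + D) ∧ Many ((1 / 4 + 1 / 500000) / θ) (fun p => (μ p, h p))) ∧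
    -- the duality for all slopes
    (∀ k m : ℕ, 1 ≤ k → 1 ≤ m → ∃ C δ : ℝ, 0 < C ∧ 0 < δ ∧ ∀ (θ : ℝ) (s : Fin k → ℕ), 0 < θ → (∀ i, 0 < s i) →
      AlmostAll θ s C δ ∨
      ∀ μ : Fin m → ℕ, (∀ p, 0 < μ p) → ∃ D : ℕ, ∀ w : Fin m → ℤ, ∃ (h x : Fin m → ℤ) (j : Fin m → Fin k),
        (∀ p, w p < h p ∧ h p ≤ w p + D ∧ |x p| ≤ D) ∧
          Many ((1 / 4 + 1 / 500000) / θ) (fun p => (s (j p) * μ p, s (j p) * h p + x p))) ∧
    -- a third of all pairs
    (∃ C δ : ℝ, 0 < C ∧ 0 < δ ∧ ∀ V : Finset (ℕ × ℤ),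
      (∀ f ∈ V, 0 < f.1 ∧ IsCoprime (f.1 : ℤ) f.2 ∧ IsCoprime (6 : ℤ) f.2) →
      1 / 3 * (#V : ℝ) ^ 2 - C * (#V : ℝ) ^ (2 - δ) ≤
        ({p | p ∈ V ×ˢ V ∧ Pair p.1 p.2}.ncard : ℝ)) ∧
    -- one quarter of all triples, one third with the weights `SS`
    (∀ ε : ℝ, 0 < ε → ∃ N₀ : ℕ, ∀ N : ℕ, N₀ ≤ N → ∃ M₀ : ℕ, ∀ M : ℕ, M₀ ≤ M → ∀ u : ℤ,
      1 / 4 * LogSum (fun _ _ _ => 1) Admissible N M u ≤ LogSum (fun _ _ _ => 1) TrueCase N M u ∧
      (|u| ≤ M → (1 / 3 - ε) * LogSum SS Admissible N M u ≤ LogSum SS TrueCase N M u)) ∧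
    -- differences of primes
    (∀ m : ℕ, 1 ≤ m → ∀ ε : ℝ, 0 < ε → ∃ M₀ : ℕ, ∀ M : ℕ, M₀ ≤ M → ∀ u : ℤ,
      (1 / 3 - ε) * M ≤ ({c : ℤ | c ∈ Ioc u (u + M) ∧ c ≠ 0 ∧
        {pq : ℕ × ℕ | pq.1.Prime ∧ pq.2.Prime ∧ (pq.1 : ℤ) - pq.2 = 2 * m * c}.Infinite}.ncard : ℝ)) := by
  refine ⟨?_, ?_, ?_, ?_, ?_, ?_⟩
  · intro k hk
    obtain ⟨C, δ, hC, hδ, -, H⟩ := Pool.Agent.AT.Q_all k hk
    refine ⟨C, δ, hC, hδ, fun F L hL hF hpos => ?_⟩
    rw [hcard _ _ _ _ fun f => (Iff.rfl : (Adm f ∧ ¬ Many (1 / 4 + 1 / 500000) f) ↔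
      Pool.Agent.AT.Adm f ∧ ¬ Pool.Agent.AT.Many f)]
    exact H F L hL hF hpos
  · intro θ hθ
    rcases Pool.Agent.LD.DUE_all θ with h | h
    · left
      intro k hk
      obtain ⟨K, hK⟩ := h k hk
      have hK' : Pool.Agent.LD.BoxT θ k (fun _ => 1) (K + 1) := fun H hH h1 => hK H (fun i => by
        have := hH i
        omega) h1
      obtain ⟨C, δ, hC, hδ, H⟩ := aa k (K + 1) hk (by omega)
      exact ⟨C, δ, hC, hδ, H θ _ hK'⟩
    · right
      intro m hm μ hμ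
      obtain ⟨D, H⟩ := h m μ hm hμ
      refine ⟨D, fun w => ?_⟩
      obtain ⟨x, I, hx, hI, H'⟩ := H w
      exact ⟨x, hx, mm hθ _ I hI H'⟩
  · intro k m hk hm
    obtain ⟨K, hK, H⟩ := Pool.Agent.LD.LEE_all k m hk hm
    obtain ⟨C, δ, hC, hδ, H'⟩ := aa k K hk hK
    refine ⟨C, δ, hC, hδ, fun θ s hθ hs => ?_⟩
    rcases H θ s hs with h | h
    · exact Or.inl (H' θ s h)
    · right
      intro μ hμ
      obtain ⟨D, h1⟩ := h μ hμ
      refine ⟨D, fun w => ?_⟩
      obtain ⟨x, y, I, j, hx, hI, h2⟩ := h1 w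
      exact ⟨x, y, j, hx, mm hθ _ I hI h2⟩
  · obtain ⟨C, δ, hC, hδ, H⟩ := Pool.Agent.AT.THP_all Pool.Agent.AT.QPc_all
    refine ⟨C, δ, hC, hδ, fun V hV => ?_⟩
    have h1 := H V hV
    rw [hP] at h1
    rwa [hcard _ _ _ _ fun _ => Iff.rfl]
  · intro ε hε
    obtain ⟨N₀, H⟩ := Pool.Agent.helper11.TX.FN_of Pool.Agent.helper11.MK.cm4 ε hε
    refine ⟨N₀, fun N hN => ?_⟩
    obtain ⟨M₀, H1⟩ := H N hN
    refine ⟨M₀, fun M hM u => ?_⟩
    have h2 : ∀ (G : ℕ → ℕ → ℤ → ℝ) (P : ℕ → ℕ → ℤ → Prop),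
        Pool.Agent.helper11.TX.Sm P G N M u = LogSum G P N M u := by
      intro G P
      unfold Pool.Agent.helper11.TX.Sm LogSum
      refine sum_congr rfl fun a _ => sum_congr rfl fun b _ => ?_
      rw [sum_filter]
      refine congrArg (fun x => 1 / ((a : ℝ) * (b : ℝ) ^ 2) * x) (sum_congr rfl fun c _ => ?_)
      by_cases hc : P a b c
      · rw [if_pos hc, Set.indicator_of_mem (show c ∈ {c | P a b c} from hc)]
      · rw [if_neg hc, Set.indicator_of_notMem (show c ∉ {c | P a b c} from hc)]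
    constructor
    · have h1 := (H1 M hM).2 u
      rw [h2, h2, hT] at h1
      exact h1
    · intro hu
      have h1 := (H1 M hM).1 u hu
      rw [h2, h2, hT] at h1
      exact h1
  · intro m hm ε hε
    obtain ⟨M₀, H⟩ := Pool.Agent.AT.THG_all Pool.Agent.AT.QPc_all m hm ε hε
    refine ⟨M₀, fun M hM u => ?_⟩
    rw [hcard _ _ _ _ fun _ => Iff.rfl]
    exact H M hM u

end Pool.Agent.Results.MP_bf63dc_nt.AlmostAllTuples
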