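import Pool.Agent.helper38.OV.All
import Pool.Agent.helper10.OM.AllG

/-!
# Density one in a residue class, for a positive proportion of all pairs of coefficients

`c` is called true for `(a, b)` if `(a, b, c)` satisfies the conditions of Q1 and `a p - b q = c` has infinitely many solutions in primes
`p, q`. A pair `(a, b)` is `ε`-solved (`Solved`) if there are `q` and `s` such that for arbitrarily large `X` at least `(1 - ε) 2X/q` of the
`c ≡ s (mod q)`, `|c| ≤ X`, are true for `(a, b)`: in this class the true `c` have upper density at least `1 - ε`.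

THEOREM. (1) For every `ε > 0` there is `δ > 0` such that for all large `N` at least `δ N²` coprime pairs `(a, b)` with `a, b ≤ N` are
`ε`-solved; and for all coprime `a ≠ b` at least `δ N` of the pairs `(a^m, b^m)`, `m ≤ N`, are `ε`-solved, for large `N`.
(2) In general: for all `ε`, `K` there are `L`, `δ > 0`, `λ > 0` such that for all coprime `a ≤ λ b` and every finite set `S` of positive
integers with `s ≤ K s'` for all `s, s' ∈ S` at least `δ |S|²` pairs `(s, s') ∈ S²` have an `m`, `1 ≤ m < L`, such that `(B, A)` with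
`A/B = (s/s') (a/b)^m` in lowest terms is `ε`-solved.
(3) For every `ε > 0` there is `η > 0` such that every finite set `F` of positive integers with at most `η |F|²` different quotients has at
least `(1/3 - ε) |F|²` pairs `(s, s')` whose quotient in lowest terms is `ε`-good (`Good`): there are `q`, `r` such that for every `T` some
`T` consecutive terms of the progression `r + q ℤ` contain at least `(1 - ε) T` true `c`.

PROOF. `Pool/Agent/helper38/OV/Spec.lean` (with `OP/Spec.lean` and `Pool/Agent/helper10/OM/Spec.lean`); (3): `Pool/Agent/helper10/OM/SpecG.lean`.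
Take the forms `s a^i b^(L-i) n + 1 + H x`, `s ∈ S`, `i < L`, `|x| ≤ Y`. In almost no four of them all six pairs are false (a pair of forms is
true if the case of Q1 which it gives is true): this is the theorem on almost all tuples of linear forms, proved in
`Pool/Agent/helper38/AT` by a sieve of Maynard and Tao for clusters of forms. Whether a pair of points `(s, i, x)`, `(s', j, y)`, `m = i - j > 0`,
is false depends only on `s, s', m` and on `v = B x - A y`, `A/B = (s/s') (a/b)^m`. LEMMA: in cut norm the function `false` is near to its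
average `P` over progressions `v + M t` of length about `A Y`: the frequencies `(α, β)` with `A_m α + B_m β` near to an integer for two
different `m` are near to rational numbers with bounded denominator (a determinant divides `M`), so `false` has large correlation with
characters of other frequencies for at most one `m`. So `P` has few 4-cliques; and `P` depends only on `x` and on `y mod M`. If the false
`v` had density at least `ε` in all classes mod `M`, for almost all `(s, s')` and all `m`, then `P` would have many 4-cliques (three times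
Cauchy-Schwarz).
-/

set_option autoImplicit false

namespace Pool.Agent.Results.MP_bf63dc_nt.DensityOne

open Finset

/-- The conditions of Q1 on `a, b, c`. -/
def Admissible (a b : ℕ) (c : ℤ) : Prop :=
  0 < a ∧ 0 < b ∧ c ≠ 0 ∧ Nat.Coprime a b ∧ IsCoprime (a : ℤ) c ∧ IsCoprime (b : ℤ) c ∧
    ¬ (Odd a ∧ Odd b ∧ Odd c)

/-- `(a, b, c)` satisfies the conditions of Q1 and `a p - b q = c` has infinitely many solutions in
primes `p, q`. -/
def TrueCase (a b : ℕ) (c : ℤ) : Prop :=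
  Admissible a b c ∧ {pq : ℕ × ℕ | pq.1.Prime ∧ pq.2.Prime ∧ (a : ℤ) * pq.1 - b * pq.2 = c}.Infinite

/-- In some residue class `s` modulo `q` at least `(1 - ε) 2X/q` of the `c` with `|c| ≤ X` are true for `(a, b)`, for arbitrarily
large `X`. -/
def Solved (ε : ℝ) (a b : ℕ) : Prop :=
  ∃ q s : ℕ, 1 ≤ q ∧ s < q ∧ ∀ X₀ : ℕ, ∃ X : ℕ, X₀ ≤ X ∧
    (1 - ε) * (2 * X) ≤ q * ({c : ℤ | |c| ≤ X ∧ c % q = s ∧ TrueCase a b c}.ncard : ℝ)

/-- For some `q, r` and every `T` at least `(1 - ε) T` of some `T` consecutive terms of the progression `r + q ℤ` are true for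
`(a, b)`. -/
def Good (ε : ℝ) (a b : ℕ) : Prop :=
  ∃ q r : ℕ, 1 ≤ q ∧ ∀ T : ℕ, 1 ≤ T → ∃ u : ℤ,
    (1 - ε) * T ≤ ({t : ℕ | t < T ∧ TrueCase a b (r + q * (u + t))}.ncard : ℝ)

theorem hT : Pool.Agent.helper85.FC.TrueCase = TrueCase := by
  funext a b c
  unfold Pool.Agent.helper85.FC.TrueCase TrueCase Admissible
  simp only [and_assoc]

theorem hcard {α : Type} (s : Finset α) (P Q : α → Prop) (inst : DecidablePred Q) (h : ∀ x, P x ↔ Q x) :
    (({x | x ∈ s ∧ P x}.ncard : ℕ) : ℝ) = ((#(@Finset.filter α Q inst s) : ℕ) : ℝ) := by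
  have h1 : {x | x ∈ s ∧ P x} = ((@Finset.filter α Q inst s : Finset α) : Set α) := by
    ext x
    simp [h]
  rw [h1, Set.ncard_coe_finset]

theorem hS (ε : ℝ) (a b : ℕ) : Pool.Agent.OV.Dens ε b a → Solved ε a b := by
  rintro ⟨q, s, hq, hs, H⟩
  refine ⟨q, s, hq, hs, fun X₀ => ?_⟩
  obtain ⟨X, hX, h⟩ := H X₀
  refine ⟨X, hX, ?_⟩
  rw [hT] at h
  rw [← hcard _ (fun c : ℤ => c % (q : ℤ) = s ∧ TrueCase a b c) _ _ fun _ => Iff.rfl] at h
  have e : {c : ℤ | |c| ≤ X ∧ c % q = s ∧ TrueCase a b c} =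
      {x : ℤ | x ∈ Icc (-(X : ℤ)) (X : ℤ) ∧ (x % (q : ℤ) = s ∧ TrueCase a b x)} := by
    ext c
    simp only [Set.mem_ofPred_eq, mem_Icc, abs_le]
  rw [e]
  exact h

theorem hG (ε : ℝ) (a b : ℕ) : Pool.Agent.OM.GoodR ε a b → Good ε a b := by
  rintro ⟨q, r, hq, H⟩
  refine ⟨q, r, hq, fun T hT1 => ?_⟩
  obtain ⟨u, h⟩ := H T hT1
  refine ⟨u, ?_⟩
  unfold Pool.Agent.OM.NR at h
  rw [hT] at h
  rw [← hcard _ (fun t : ℕ => TrueCase a b (r + q * u + q * ((t : ℕ) : ℤ))) _ _ fun _ => Iff.rfl] at h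
  have e : {t : ℕ | t < T ∧ TrueCase a b (r + q * (u + t))} =
      {x : ℕ | x ∈ range T ∧ TrueCase a b (r + q * u + q * ((x : ℕ) : ℤ))} := by
    ext t
    simp only [Set.mem_ofPred_eq, mem_range]
    rw [show (r : ℤ) + q * (u + t) = r + q * u + q * (t : ℤ) by ring]
  rw [e]
  exact h

/-- monotonicity of counts -/
theorem hle {α : Type} (s : Finset α) (P Q : α → Prop) (inst : DecidablePred Q) (h : ∀ x ∈ s, Q x → P x) :
    ((#(@Finset.filter α Q inst s) : ℕ) : ℝ) ≤ (({x | x ∈ s ∧ P x}.ncard : ℕ) : ℝ) := by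
  rw [← Set.ncard_coe_finset]
  refine Nat.cast_le.2 (Set.ncard_le_ncard ?_ (s.finite_toSet.subset fun x hx => hx.1))
  intro x hx
  rw [mem_coe, mem_filter] at hx
  exact ⟨hx.1, h x hx.1 hx.2⟩

/-- the same with the two coordinates exchanged -/
theorem hswap (s : Finset ℕ) (P Q : ℕ × ℕ → Prop) (inst : DecidablePred Q) (h : ∀ x ∈ s ×ˢ s, Q x → P x.swap) :
    ((#(@Finset.filter (ℕ × ℕ) Q inst (s ×ˢ s)) : ℕ) : ℝ) ≤ (({x | x ∈ s ×ˢ s ∧ P x}.ncard : ℕ) : ℝ) := by
  rw [← Finset.card_map (Equiv.prodComm ℕ ℕ).toEmbedding, ← Set.ncard_coe_finset]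
  refine Nat.cast_le.2 (Set.ncard_le_ncard ?_ ((s ×ˢ s).finite_toSet.subset fun x hx => hx.1))
  intro x hx
  rw [mem_coe, mem_map] at hx
  obtain ⟨y, hy, rfl⟩ := hx
  rw [mem_filter] at hy
  have h1 := mem_product.1 hy.1
  exact ⟨mem_product.2 ⟨h1.2, h1.1⟩, h y hy.1 hy.2⟩

/-- **Density one in a residue class, for a positive proportion of all pairs of coefficients.** -/
theorem result :
    -- a positive proportion of all pairs, and of the powers of every pair, is solved up to `ε`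
    (∀ ε : ℝ, 0 < ε → ∃ δ : ℝ, 0 < δ ∧
      (∃ N₀ : ℕ, ∀ N : ℕ, N₀ ≤ N → δ * (N : ℝ) ^ 2 ≤
        ({p | p ∈ Icc 1 N ×ˢ Icc 1 N ∧ (Nat.Coprime p.1 p.2 ∧ Solved ε p.1 p.2)}.ncard : ℝ)) ∧
      ∀ a b : ℕ, 1 ≤ a → 1 ≤ b → Nat.Coprime a b → a ≠ b → ∃ N₀ : ℕ, ∀ N : ℕ, N₀ ≤ N →
        δ * N ≤ ({m | m ∈ Icc 1 N ∧ Solved ε (a ^ m) (b ^ m)}.ncard : ℝ)) ∧
    -- for all sets `S`
    (∀ ε : ℝ, 0 < ε → ∀ K : ℕ, 1 ≤ K → ∃ (L : ℕ) (δ lam : ℝ), 0 < δ ∧ 0 < lam ∧
      ∀ a b : ℕ, 1 ≤ a → Nat.Coprime a b → (a : ℝ) ≤ lam * b →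
      ∀ S : Finset ℕ, (∀ s ∈ S, 1 ≤ s) → (∀ s ∈ S, ∀ s' ∈ S, s ≤ K * s') →
        δ * (#S : ℝ) ^ 2 ≤ ({p | p ∈ S ×ˢ S ∧ ∃ m ∈ Ico 1 L, Solved ε
          (p.2 * b ^ m / Nat.gcd (p.1 * a ^ m) (p.2 * b ^ m))
          (p.1 * a ^ m / Nat.gcd (p.1 * a ^ m) (p.2 * b ^ m))}.ncard : ℝ)) ∧
    -- a third of the quotients of a set with few quotients
    (∀ ε : ℝ, 0 < ε → ∃ η : ℝ, 0 < η ∧ ∀ F : Finset ℕ, (∀ s ∈ F, 0 < s) →
      (#((F ×ˢ F).image (fun p => (p.1 : ℚ) / p.2)) : ℝ) ≤ η * (#F : ℝ) ^ 2 →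
      (1 / 3 - ε) * (#F : ℝ) ^ 2 ≤
        ({p | p ∈ F ×ˢ F ∧ Good ε (p.1 / Nat.gcd p.1 p.2) (p.2 / Nat.gcd p.1 p.2)}.ncard : ℝ)) := by
  refine ⟨?_, ?_, ?_⟩
  · intro ε hε
    obtain ⟨δ₁, hδ₁, N₁, H₁⟩ := Pool.Agent.OV.OMPOS_all ε hε
    obtain ⟨δ₂, hδ₂, H₂⟩ := Pool.Agent.OV.OMEXP_all ε hε
    refine ⟨min δ₁ δ₂, lt_min hδ₁ hδ₂, ⟨N₁, fun N hN => ?_⟩, fun a b ha hb hab hne => ?_⟩
    · refine le_trans (mul_le_mul_of_nonneg_right (min_le_left _ _) (by positivity)) (le_trans (H₁ N hN) ?_)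
      exact hswap _ _ _ _ fun x _ hx => ⟨hx.1.symm, hS _ _ _ hx.2⟩
    · obtain ⟨N₀, H⟩ := H₂ b a hb ha hab.symm hne.symm
      refine ⟨N₀, fun N hN => ?_⟩
      refine le_trans (mul_le_mul_of_nonneg_right (min_le_right _ _) (by positivity)) (le_trans (H N hN) ?_)
      exact hle _ _ _ _ fun m _ hm => hS _ _ _ hm
  · intro ε hε K hK
    obtain ⟨L, δ, lam, hδ, hlam, H⟩ := Pool.Agent.OV.OMEGAS_all ε hε K hK
    refine ⟨L, δ, lam, hδ, hlam, fun a b ha hab hle' S hS1 hS2 => le_trans (H a b ha hab hle' S hS1 hS2) ?_⟩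
    refine hle _ _ _ _ fun p _ hp => ?_
    obtain ⟨m, hm, h⟩ := hp
    exact ⟨m, hm, hS _ _ _ h⟩
  · intro ε hε
    obtain ⟨η, hη, H⟩ := Pool.Agent.OM.OMG_all ε hε
    refine ⟨η, hη, fun F hF h => le_trans (H F hF ?_) ?_⟩
    · unfold Pool.Agent.OM.QF
      exact h
    · exact hle _ _ _ _ fun p _ hp => hG _ _ _ hp

end Pool.Agent.Results.MP_bf63dc_nt.DensityOne
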