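import Pool.Agent.helper11.TX.All3
import Pool.Agent.helper11.MK.Main

/-!
# A third for every finite set of coefficients

For coprime `a, b` let `D a b M u` be the proportion of the `c` with `u < c/b ≤ u + M` for which
`a p - b q = c` has infinitely many solutions in primes, among all `c` allowed in Q1, with the weights of
the conjecture of Hardy and Littlewood. For every finite set `S` of positive integers and large `M` the
average of `D (t/g) (s/g) M u`, `g = gcd(s, t)`, over the pairs `(s, t)` of elements of `S` is at least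
`1/3 - ε`; weights on `S` are allowed. Special sets `S` give: one quarter of all admissible triples
(logarithmic density in `a, b`), at least `2/9 - ε` of the even numbers in every long interval are
differences of infinitely many pairs of primes (`S = {1}`), and a positive proportion of all triples in
boxes (`S` the numbers up to `N` prime to 6).

Proof: see `Pool.Agent.helper11.TX.Spec` and `Spec2`, `Spec3`; by a theorem of the kind of Maynard and Tao on
four clusters of linear forms (`Pool.Agent.helper17.MK`; Rosser's sieve and a small gain for the pairs, as in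
the work of Merikoski) and the theorem of Erdos and Stone, among the forms `s n - x` with `x` prime to `s W`,
a third of the pairs of any finite set are simultaneously prime infinitely often; `x` is chosen at random
from intervals whose lengths grow quickly.
-/

namespace Pool.Agent.Results.MP_bf63dc_nt.EveryFiniteSet

open Finset

/-- The conditions of Q1 on `a, b, c`. -/
def Admissible (a b : ℕ) (c : ℤ) : Prop :=
  0 < a ∧ 0 < b ∧ c ≠ 0 ∧ Nat.Coprime a b ∧ IsCoprime (a : ℤ) c ∧ IsCoprime (b : ℤ) c ∧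
    ¬ (Odd a ∧ Odd b ∧ Odd c)

/-- `(a, b, c)` satisfies the conditions of Q1 and `a p - b q = c` has infinitely many solutions in
primes `p, q`. -/
def TrueCase (a b : ℕ) (c : ℤ) : Prop :=
  Admissible a b c ∧ {pq : ℕ × ℕ | pq.1.Prime ∧ pq.2.Prime ∧ (a : ℤ) * pq.1 - b * pq.2 = c}.Infinite

/-- The product of `(l - 1)/(l - 2)` over the odd primes `l` dividing `a b c`: the number of solutions
of `a p - b q = c` conjectured by Hardy and Littlewood is proportional to it for given `a, b`. -/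
noncomputable def HL (a b : ℕ) (c : ℤ) : ℝ :=
  ∏ l ∈ (a * b * c.natAbs).primeFactors with l ≠ 2, ((l : ℝ) - 1) / ((l : ℝ) - 2)

open Classical in
/-- The sum of `HL a b c` over the `c` with `b u < c ≤ b (u + M)` and `P a b c`. -/
noncomputable def Mass (P : ℕ → ℕ → ℤ → Prop) (a b M : ℕ) (u : ℤ) : ℝ :=
  ∑ c ∈ Ioc ((b : ℤ) * u) ((b : ℤ) * (u + M)) with P a b c, HL a b c

/-- The proportion of the true cases among the admissible `c` with `b u < c ≤ b (u + M)`, with the
weights `HL a b c`. -/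
noncomputable def D (a b M : ℕ) (u : ℤ) : ℝ := Mass TrueCase a b M u / Mass Admissible a b M u

open Classical in
/-- The sum over `a, b ≤ N` of `1/(a b)` times the mean value `1/b` times the number of the `c` with
`b u < c ≤ b (u + M)` and `P a b c`. -/
noncomputable def LogCount (P : ℕ → ℕ → ℤ → Prop) (N M : ℕ) (u : ℤ) : ℝ :=
  ∑ a ∈ Icc 1 N, ∑ b ∈ Icc 1 N, 1 / ((a : ℝ) * (b : ℝ) ^ 2) *
    (#{c ∈ Ioc ((b : ℤ) * u) ((b : ℤ) * (u + M)) | P a b c} : ℝ)

open Classical in
/-- **A third for every finite set**, and its consequences. -/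
theorem result :
    -- every finite set of coefficients
    (∀ (S : Finset ℕ) (h : ℕ → ℝ), (∀ s ∈ S, 0 < s ∧ 0 ≤ h s) → ∀ ε : ℝ, 0 < ε →
      ∃ M₀ : ℕ, ∀ M : ℕ, M₀ ≤ M → ∀ u : ℤ, |u| ≤ M →
        (1 / 3 - ε) * (∑ s ∈ S, h s) ^ 2 ≤
          ∑ s ∈ S, ∑ t ∈ S, h s * h t * D (t / Nat.gcd s t) (s / Nat.gcd s t) M u) ∧
    -- one quarter of all triples
    (∃ N₀ : ℕ, ∀ N : ℕ, N₀ ≤ N → ∃ M₀ : ℕ, ∀ M : ℕ, M₀ ≤ M → ∀ u : ℤ,
      1 / 4 * LogCount Admissible N M u ≤ LogCount TrueCase N M u) ∧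
    -- differences of primes
    (∀ ε : ℝ, 0 < ε → ∃ M₀ : ℕ, ∀ M : ℕ, M₀ ≤ M → ∀ u : ℤ,
      (1 / 9 - ε) * M ≤ (#{c ∈ Ioc u (u + M) | c ≠ 0 ∧
        {pq : ℕ × ℕ | pq.1.Prime ∧ pq.2.Prime ∧ (pq.1 : ℤ) - pq.2 = c}.Infinite} : ℝ)) ∧
    -- boxes
    (∃ N₀ : ℕ, ∀ N : ℕ, N₀ ≤ N → ∃ M₀ : ℕ, ∀ M : ℕ, M₀ ≤ M → ∀ σ : ℤ, σ = 1 ∨ σ = -1 →
      (N : ℝ) ^ 2 * M / 850 ≤
        (#{t ∈ Icc 1 N ×ˢ Icc 1 N ×ˢ Icc 1 M | TrueCase t.1 t.2.1 (σ * t.2.2)} : ℝ)) := by
  have hT : Pool.Agent.helper85.FC.TrueCase = TrueCase := by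
    funext a b c
    unfold Pool.Agent.helper85.FC.TrueCase TrueCase Admissible
    simp only [and_assoc]
  refine ⟨?_, ?_, ?_, ?_⟩
  · intro S h hS ε hε
    obtain ⟨M₀, H⟩ := Pool.Agent.helper11.TX.DF_of Pool.Agent.helper11.MK.cm4 S h hS ε hε
    refine ⟨M₀, fun M hM u hu => ?_⟩
    have h1 := H M hM u hu
    have h2 : Pool.Agent.helper11.TX.DD = D := by
      unfold Pool.Agent.helper11.TX.DD D
      funext a b M u
      rw [hT]
      rfl
    rwa [h2] at h1
  · obtain ⟨N₀, H⟩ := Pool.Agent.helper11.TX.FN_of Pool.Agent.helper11.MK.cm4 1 one_pos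
    refine ⟨N₀, fun N hN => ?_⟩
    obtain ⟨M₀, H1⟩ := H N hN
    refine ⟨M₀, fun M hM u => ?_⟩
    have h1 := (H1 M hM).2 u
    have h2 : ∀ P : ℕ → ℕ → ℤ → Prop,
        Pool.Agent.helper11.TX.Sm P (fun _ _ _ => 1) N M u = LogCount P N M u := by
      intro P
      unfold Pool.Agent.helper11.TX.Sm LogCount
      refine sum_congr rfl fun a _ => sum_congr rfl fun b _ => ?_
      rw [sum_const, nsmul_eq_mul, mul_one]
    rw [h2, h2, hT] at h1
    exact h1
  · intro ε hε
    obtain ⟨M₀, H⟩ := Pool.Agent.helper11.TX.PO_of Pool.Agent.helper11.MK.cm4 ε hε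
    refine ⟨M₀, fun M hM u => (H M hM u).trans ?_⟩
    have : #{c ∈ Ioc u (u + M) | Pool.Agent.helper85.FC.TrueCase 1 1 c} ≤ #{c ∈ Ioc u (u + M) | c ≠ 0 ∧
        {pq : ℕ × ℕ | pq.1.Prime ∧ pq.2.Prime ∧ (pq.1 : ℤ) - pq.2 = c}.Infinite} := by
      refine card_le_card fun c hc => ?_
      rw [mem_filter] at hc ⊢
      refine ⟨hc.1, hc.2.2.2.1, ?_⟩
      have h3 := hc.2.2.2.2.2.2.2.2
      simpa using h3
    exact_mod_cast this
  · obtain ⟨N₀, H⟩ := Pool.Agent.helper11.TX.NB_of Pool.Agent.helper11.MK.cm4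
    refine ⟨N₀, fun N hN => ?_⟩
    obtain ⟨M₀, H1⟩ := H N hN
    refine ⟨M₀, fun M hM σ hσ => ?_⟩
    have h1 := H1 M hM
    rw [hT] at h1
    rcases hσ with rfl | rfl
    · refine h1.1.trans (le_of_eq ?_)
      simp only [one_mul]
    · refine h1.2.trans (le_of_eq ?_)
      simp only [neg_mul, one_mul]

end Pool.Agent.Results.MP_bf63dc_nt.EveryFiniteSet
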