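import Pool.Agent.helper10.QT.AllY
import Pool.Agent.helper85.FD.Four
import Pool.Agent.helper85.QD.Folner
import Pool.Agent.helper85.QD.Consec

/-!
# Quotients of shifted primes

Let `c` be a nonzero integer, `G` the group of the positive rationals with numerator and denominator prime to `c` (all positive rationals
for `c = 1, -1`), `R` the set of all `r` in `G` with `r = (p - c) / (q - c)` for infinitely many pairs of primes `p, q`. If `r = b / a` in
lowest terms this is an instance of Q1: `a p - b q = c (a - b)`.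

THEOREM. At least one of the following holds.
(A) There is a subgroup `H` of index `m = 2` or `3` of `G` with `R ⊆ H`, `R R = H`, and for every `k` almost all `k`-tuples `x` of elements of
`H` (all but `C |F_1| ... |F_k| L^(-δ)` in `F_1 × ... × F_k` for all finite sets `F_i ⊆ H` of at least `L` elements; `C, δ` depend only on
`k`) have more than `m k / 4` of the numbers `x_i N + c` simultaneously prime for arbitrarily large rational `N`: in particular almost
all elements of `H` are in `R`.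
(B) Every element of `G` is a product of three elements of `R`.

Consequences of the method: among any four elements of `G` two have their quotient in `R R` (so one of `r`, `r²`, `r³` is in `R R`);
at least a third of the quotients in every finite set are in `R`, with a power saving; a third of the elements of every large almost
invariant subset of a subgroup; if `c` has no small prime factor (`c = 1, -1`) a positive proportion of the quotients `a / (a + 1)`
of consecutive integers are in `R`, uniformly in `c`.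

PROOF. The rows with complete proofs are in `Pool/Agent/helper10/QT/SpecY.lean`, `SpecZ.lean`, `SpecW.lean`. The forms `s n + c`, `s` prime
to `c`, are always admissible, so the theorem of Maynard and Tao for `k` clusters with more than `(1/4 + 1/500000) k` of them hit
(`Pool/Agent/helper38/AT`) applies to all `k` disjoint finite sets of `K(k)` elements of `G`; `k = 4`: a quotient of elements of two
different clusters is in `R`. Let `p` be a nonprincipal ultrafilter on `G` and `W` the set of the `g` with `g x / y ∈ R` for almost all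
`x`, for almost all `y`. Then for all `x_1, ..., x_4` some `x_i / x_j`, `i < j`, is in `W`, and `u v w ∈ R R R` if `u, v, w⁻¹ ∈ W`. This
shows that the group `H` generated by `W` is `W ∪ W⁻¹`, of index 2 or 3 and contained in `R R`, or all elements of `G` are in
`R R R`. For `k` disjoint sets in `H` take copies in the `m` cosets: `m k` clusters, more than `m k / 4` are hit, all in one copy.
-/

set_option autoImplicit false

namespace Pool.Agent.Results.MP_bf63dc_nt.ShiftedRatios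

open Finset

/-- `r = (p - c) / (q - c)` for infinitely many pairs of primes `p, q`. -/
def Good (c : ℤ) (r : ℚ) : Prop :=
  {pq : ℕ × ℕ | pq.1.Prime ∧ pq.2.Prime ∧ (pq.1 : ℚ) - c = r * ((pq.2 : ℚ) - c)}.Infinite

/-- `r` is positive and its numerator and denominator are prime to `c`. -/
def PrimeTo (c : ℤ) (r : ℚ) : Prop :=
  0 < r ∧ ∀ p : ℕ, p.Prime → (p : ℤ) ∣ c → padicValRat p r = 0

/-- For arbitrarily large rationals `N` more than `θ k` of the numbers `x i N + c` are primes. -/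
def Rich (c : ℤ) (θ : ℝ) {k : ℕ} (x : Fin k → ℚˣ) : Prop :=
  ∀ B : ℕ, ∃ N : ℚ, (B : ℚ) ≤ N ∧ θ * k < ({i : Fin k | ∃ p : ℕ, p.Prime ∧ (x i : ℚ) * N + c = p}.ncard : ℝ)

/-- The group of the positive rationals prime to `c`. -/
def G (c : ℤ) : Subgroup ℚˣ where
  carrier := {x | PrimeTo c (x : ℚ)}
  mul_mem' := (Pool.Agent.AT.Gc c).mul_mem'
  one_mem' := (Pool.Agent.AT.Gc c).one_mem'
  inv_mem' := (Pool.Agent.AT.Gc c).inv_mem'

lemma good_iff {c : ℤ} {r : ℚ} : Good c r ↔ Pool.Agent.helper85.QD.Quot c r 1 := by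
  unfold Good Pool.Agent.helper85.QD.Quot
  have : ∀ pq : ℕ × ℕ, ((pq.1 : ℚ) - c = r * ((pq.2 : ℚ) - c) ↔
      ((pq.1 : ℚ) - c) * 1 = ((pq.2 : ℚ) - c) * r) := by
    intro pq
    constructor
    · intro h
      linear_combination h
    · intro h
      linear_combination h
  simp only [this]

open Classical in
/-- **Quotients of shifted primes.** -/
theorem result :
    (∃ C δ : ℕ → ℝ, (∀ k, 0 < C k ∧ 0 < δ k) ∧ ∀ c : ℤ, c ≠ 0 →
      (∃ (H : Subgroup ℚˣ) (m : ℕ), H ≤ G c ∧ (m = 2 ∨ m = 3) ∧ H.relIndex (G c) = m ∧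
        (∀ x ∈ G c, Good c x → x ∈ H) ∧
        (∀ x ∈ H, ∃ y ∈ G c, ∃ z ∈ G c, Good c y ∧ Good c z ∧ x = y * z) ∧
        ∀ k : ℕ, 1 ≤ k → ∀ (F : Fin k → Finset ℚˣ) (L : ℕ), 1 ≤ L → (∀ i, L ≤ #(F i)) → (∀ i, ∀ x ∈ F i, x ∈ H) →
          (#{x ∈ Fintype.piFinset F | ¬ Rich c (m * (1 / 4 + 1 / 500000)) x} : ℝ) ≤
            C k * (∏ i, (#(F i) : ℝ)) * (L : ℝ) ^ (-δ k)) ∨
      ∀ x ∈ G c, ∃ y : Fin 3 → ℚˣ, (∀ i, y i ∈ G c ∧ Good c (y i)) ∧ x = ∏ i, y i) ∧
    (∀ c : ℤ, c ≠ 0 → ∀ x : Fin 4 → ℚˣ, (∀ i, x i ∈ G c) →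
      ∃ i j, i ≠ j ∧ ∃ y ∈ G c, ∃ z ∈ G c, Good c y ∧ Good c z ∧ x i / x j = y * z) ∧
    (∃ C δ : ℝ, 0 < C ∧ 0 < δ ∧ ∀ c : ℤ, c ≠ 0 → ∀ S : Finset ℚ, (∀ x ∈ S, PrimeTo c x) →
      1 / 3 * (#S : ℝ) ^ 2 - C * (#S : ℝ) ^ (2 - δ) ≤ #{p ∈ S ×ˢ S | p.1 ≠ p.2 ∧ Good c (p.1 / p.2)}) ∧
    (∀ c : ℤ, c ≠ 0 → ∀ H : Subgroup ℚˣ, H ≤ G c → ∀ ε : ℝ, 0 < ε →
      ∃ (E : Finset ℚˣ) (δ : ℝ) (n₀ : ℕ), 0 < δ ∧ (∀ e ∈ E, e ∈ H) ∧
        ∀ F : Finset ℚˣ, (∀ x ∈ F, x ∈ H) → n₀ ≤ #F →
          (∀ e ∈ E, (#{x ∈ F | e * x ∉ F} : ℝ) ≤ δ * #F) →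
          (1 / 3 - ε) * (#F : ℝ) ≤ #(F.filter fun x : ℚˣ => Good c (x : ℚ))) ∧
    (∃ (K : ℕ) (δ : ℝ), 0 < δ ∧ ∀ c : ℤ, c ≠ 0 → (∀ p : ℕ, p.Prime → (p : ℤ) ∣ c → K < p) →
      ∀ N : ℕ, K * c.natAbs ≤ N → δ * N / c.natAbs ≤
        #((Icc 1 N).filter fun a : ℕ => Good c (a / (a + 1) : ℚ))) := by
  refine ⟨Pool.Agent.AT.RATM_all, Pool.Agent.AT.FOUR_all, Pool.Agent.AT.QSQ_all, fun c hc H hH ε hε => ?_, ?_⟩
  · obtain ⟨E, δ, n₀, hδ, hE, hF⟩ := Pool.Agent.helper85.QD.quot_folner Pool.Agent.helper85.FD.cm4 c hc H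
      (fun x hx => hH hx) hε
    refine ⟨E, δ, n₀, hδ, hE, fun F h1 h2 h3 => ?_⟩
    simp only [good_iff]
    exact hF F h1 h2 h3
  · obtain ⟨K, δ, hδ, H⟩ := Pool.Agent.helper85.QD.consecutive Pool.Agent.helper85.FD.cm4
    refine ⟨K, δ, hδ, fun c hc hcK N hN => (H c hc hcK N hN).trans ?_⟩
    have h1 : #{a ∈ Icc 1 N | Pool.Agent.helper39.MT.InfSol (a + 1) a c} ≤
        #((Icc 1 N).filter fun a : ℕ => Good c (a / (a + 1) : ℚ)) := by
      refine card_le_card fun a ha => ?_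
      rw [mem_filter] at ha ⊢
      refine ⟨ha.1, ha.2.mono ?_⟩
      rintro ⟨p, q⟩ ⟨hp, hq, h2⟩
      refine ⟨hp, hq, ?_⟩
      simp only at h2 ⊢
      have h3 : ((a + 1 : ℕ) : ℚ) * p - a * q = c := by exact_mod_cast congrArg (Int.cast : ℤ → ℚ) h2
      push_cast at h3
      have h4 : ((a : ℚ) + 1) ≠ 0 := by positivity
      field_simp
      linarith
    exact_mod_cast h1

end Pool.Agent.Results.MP_bf63dc_nt.ShiftedRatios
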